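import Pool.Agent.Helper60.HB.Skel

/-!
# Module REL: small multiplicative relations
-/

set_option autoImplicit false

namespace Pool.Agent.Helper60.HB

open NumberField Height

/-- simultaneous Dirichlet approximation -/
theorem rel_dirichlet {n : ℕ} (θ : Fin n → ℝ) (Q : ℕ) (hQ : 1 ≤ Q) :
    ∃ (q : ℕ) (p : Fin n → ℤ), 1 ≤ q ∧ q ≤ Q ^ n ∧ ∀ i, |(q : ℝ) * θ i - p i| < 1 / Q := by
  have hQ0 : (0 : ℝ) < Q := by exact_mod_cast hQ
  have hfr : ∀ x : ℝ, ⌊Int.fract x * Q⌋₊ < Q := by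
    intro x
    rw [Nat.floor_lt (by have := Int.fract_nonneg x; positivity)]
    have h1 := Int.fract_lt_one x
    nlinarith
  let f : ℕ → (Fin n → Fin Q) := fun k i => ⟨⌊Int.fract ((k : ℝ) * θ i) * Q⌋₊, hfr _⟩
  have hcard : (Finset.univ : Finset (Fin n → Fin Q)).card < (Finset.range (Q ^ n + 1)).card := by
    rw [Finset.card_range, Finset.card_univ, Fintype.card_fun, Fintype.card_fin, Fintype.card_fin]
    omega
  obtain ⟨a, ha, b, hb, hab, hfab⟩ := Finset.exists_ne_map_eq_of_card_lt_of_maps_to hcard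
    (fun k _ => Finset.mem_univ (f k))
  -- general statement for `a < b`
  have key : ∀ a b : ℕ, a < b → b ≤ Q ^ n → f a = f b →
      ∃ (q : ℕ) (p : Fin n → ℤ), 1 ≤ q ∧ q ≤ Q ^ n ∧ ∀ i, |(q : ℝ) * θ i - p i| < 1 / Q := by
    intro a b hab hb hf
    refine ⟨b - a, fun i => ⌊(b : ℝ) * θ i⌋ - ⌊(a : ℝ) * θ i⌋, by omega, by omega, fun i => ?_⟩
    have h1 : ⌊Int.fract ((a : ℝ) * θ i) * Q⌋₊ = ⌊Int.fract ((b : ℝ) * θ i) * Q⌋₊ := by
      have := congrFun hf i
      simpa [f] using this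
    have ha0 := Int.fract_nonneg ((a : ℝ) * θ i)
    have hb0 := Int.fract_nonneg ((b : ℝ) * θ i)
    have h2 := Nat.floor_le (show 0 ≤ Int.fract ((a : ℝ) * θ i) * Q by positivity)
    have h3 := Nat.lt_floor_add_one (Int.fract ((a : ℝ) * θ i) * Q)
    have h4 := Nat.floor_le (show 0 ≤ Int.fract ((b : ℝ) * θ i) * Q by positivity)
    have h5 := Nat.lt_floor_add_one (Int.fract ((b : ℝ) * θ i) * Q)
    rw [← h1] at h4 h5
    have e : ((b - a : ℕ) : ℝ) * θ i - ((⌊(b : ℝ) * θ i⌋ - ⌊(a : ℝ) * θ i⌋ : ℤ) : ℝ) =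
        Int.fract ((b : ℝ) * θ i) - Int.fract ((a : ℝ) * θ i) := by
      rw [Nat.cast_sub hab.le]
      push_cast
      unfold Int.fract
      ring
    rw [e, lt_div_iff₀ hQ0]
    have e2 : |Int.fract ((b : ℝ) * θ i) - Int.fract ((a : ℝ) * θ i)| * Q =
        |Int.fract ((b : ℝ) * θ i) * Q - Int.fract ((a : ℝ) * θ i) * Q| := by
      rw [← sub_mul, abs_mul, abs_of_pos hQ0]
    rw [e2, abs_lt]
    constructor <;> linarith
  have ha' : a ≤ Q ^ n := by have := Finset.mem_range.1 ha; omega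
  have hb' : b ≤ Q ^ n := by have := Finset.mem_range.1 hb; omega
  rcases lt_or_gt_of_ne hab with h | h
  · exact key a b h hb' hfab
  · exact key b a h ha' hfab.symm

theorem rel_tor_height {K : Type} [Field K] [NumberField K] {x : K} (hx : TOR x) :
    logHeight₁ x = 0 := by
  obtain ⟨m, hm, hxm⟩ := hx
  have h := logHeight₁_pow x m
  rw [hxm, logHeight₁_one] at h
  have hm' : (m : ℝ) ≠ 0 := by exact_mod_cast hm.ne'
  rcases mul_eq_zero.1 h.symm with h' | h'
  · exact absurd h' hm'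
  · exact h'

theorem rel_tor_pow {K : Type} [Field K] {x : K} (hx : TOR x) (k : ℕ) : TOR (x ^ k) := by
  obtain ⟨m, hm, hxm⟩ := hx
  refine ⟨m, hm, ?_⟩
  rw [← pow_mul, mul_comm, pow_mul, hxm, one_pow]

theorem st_REL (hC0 : ST_C0) : ST_REL := by
  intro n d
  obtain ⟨c0, hc0, hc01, hC⟩ := hC0 d
  have hn0 : (0 : ℝ) ≤ n := Nat.cast_nonneg n
  refine ⟨2 * (n / c0 + 3) ^ n, ?_, ?_⟩
  · have h1 : (1 : ℝ) ≤ (n / c0 + 3) ^ n := one_le_pow₀ (by have : 0 ≤ (n : ℝ) / c0 := by positivity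
                                                            linarith)
    linarith
  intro K _ _ hK α A hA hα hh ⟨ν, hν, hT⟩
  -- the index with maximal exponent
  obtain ⟨i0, hi0⟩ : ∃ i, ν i ≠ 0 := by
    by_contra hcon
    exact hν (funext fun i => by_contra fun h => hcon ⟨i, h⟩)
  obtain ⟨j, -, hj⟩ := Finset.exists_max_image (Finset.univ : Finset (Fin n)) (fun i => |ν i|)
    ⟨i0, Finset.mem_univ _⟩
  have hνj : ν j ≠ 0 := by
    intro h0
    have := hj i0 (Finset.mem_univ _)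
    rw [h0, abs_zero] at this
    exact hi0 (abs_eq_zero.1 (le_antisymm this (abs_nonneg _)))
  have hνjR : (ν j : ℝ) ≠ 0 := by exact_mod_cast hνj
  have hνjA : (0 : ℝ) < |(ν j : ℝ)| := abs_pos.2 hνjR
  have hx0 : (0 : ℝ) ≤ n * A / c0 := by positivity
  obtain ⟨Q, hQdef⟩ : ∃ Q : ℕ, Q = ⌈(n : ℝ) * A / c0⌉₊ + 1 := ⟨_, rfl⟩
  have hQ1 : 1 ≤ Q := by omega
  have hQ0 : (0 : ℝ) < Q := by exact_mod_cast hQ1
  have hQl : (n : ℝ) * A / c0 < Q := by
    rw [hQdef]
    push_cast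
    have := Nat.le_ceil ((n : ℝ) * A / c0)
    linarith
  have hQu : (Q : ℝ) ≤ (n / c0 + 3) * A - 1 := by
    rw [hQdef]
    push_cast
    have h1 := Nat.ceil_lt_add_one hx0
    have h2 : (n : ℝ) * A / c0 = n / c0 * A := by ring
    nlinarith
  obtain ⟨q, p, hq1, hqQ, hp⟩ := rel_dirichlet (fun i => (ν i : ℝ) / ν j) Q hQ1
  have hq1R : (1 : ℝ) ≤ q := by exact_mod_cast hq1
  have hθ : ∀ i, |(ν i : ℝ) / ν j| ≤ 1 := by
    intro i
    rw [abs_div, div_le_one hνjA]
    exact_mod_cast hj i (Finset.mem_univ _)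
  have hQinv : (1 : ℝ) / Q ≤ 1 := by
    rw [div_le_one hQ0]
    exact_mod_cast hQ1
  -- bound of `p`
  have hpb : ∀ i, |(p i : ℝ)| ≤ q + 1 := by
    intro i
    have h1 := hp i
    have h2 : |(q : ℝ) * ((ν i : ℝ) / ν j)| ≤ q := by
      rw [abs_mul, Nat.abs_cast]
      have := hθ i
      nlinarith
    have h3 : (p i : ℝ) = q * ((ν i : ℝ) / ν j) - (q * ((ν i : ℝ) / ν j) - p i) := by ring
    rw [h3]
    refine (abs_sub _ _).trans ?_
    linarith
  have hpj : p j = q := by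
    have h1 := hp j
    simp only [div_self hνjR, mul_one] at h1
    have h2 : |((q : ℤ) : ℝ) - (p j : ℝ)| < 1 := by
      push_cast
      linarith
    have h3 : |(q : ℤ) - p j| < 1 := by exact_mod_cast h2
    have h4 := Int.abs_lt_one_iff.1 h3
    omega
  refine ⟨p, ?_, ?_, ?_⟩
  · intro h0
    have := congrFun h0 j
    rw [hpj] at this
    simp at this
    omega
  · intro i
    refine (hpb i).trans ?_
    have h1 : (q : ℝ) ≤ (Q : ℝ) ^ n := by exact_mod_cast hqQ
    have h2 : (1 : ℝ) ≤ (Q : ℝ) ^ n := one_le_pow₀ (by exact_mod_cast hQ1)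
    have h3 : (Q : ℝ) ^ n ≤ ((n / c0 + 3) * A) ^ n :=
      pow_le_pow_left₀ hQ0.le (by linarith) n
    rw [mul_pow] at h3
    nlinarith
  · -- torsion
    have hP0 : (∏ i, α i ^ p i) ≠ 0 :=
      Finset.prod_ne_zero_iff.2 fun i _ => zpow_ne_zero _ (hα i)
    apply hC K hK _ hP0
    have e1 : (∏ i, α i ^ p i) ^ (ν j) =
        (∏ i, α i ^ ν i) ^ q * ∏ i, α i ^ (p i * ν j - q * ν i) := by
      rw [← Finset.prod_zpow, ← Finset.prod_pow, ← Finset.prod_mul_distrib]
      refine Finset.prod_congr rfl fun i _ => ?_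
      rw [← zpow_mul, ← zpow_natCast, ← zpow_mul, ← zpow_add₀ (hα i)]
      congr 1
      ring
    have e2 : |(ν j : ℝ)| * logHeight₁ (∏ i, α i ^ p i) = logHeight₁ ((∏ i, α i ^ p i) ^ (ν j)) := by
      rw [logHeight₁_zpow]
      congr 1
      rw [Nat.cast_natAbs, Int.cast_abs]
    have h3 : |(ν j : ℝ)| * logHeight₁ (∏ i, α i ^ p i) ≤ |(ν j : ℝ)| * (n * A / Q) := by
      rw [e2, e1]
      refine (logHeight₁_mul_le _ _).trans ?_
      rw [rel_tor_height (rel_tor_pow hT q), zero_add]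
      refine (logHeight₁_prod_le _ _).trans ?_
      calc ∑ i, logHeight₁ (α i ^ (p i * ν j - q * ν i)) ≤ ∑ i : Fin n, |(ν j : ℝ)| * (A / Q) := by
            refine Finset.sum_le_sum fun i _ => ?_
            rw [logHeight₁_zpow]
            have h1 : (((p i * ν j - q * ν i : ℤ).natAbs : ℕ) : ℝ) =
                |(ν j : ℝ)| * |(q : ℝ) * ((ν i : ℝ) / ν j) - p i| := by
              rw [Nat.cast_natAbs, Int.cast_abs, ← abs_mul, ← abs_neg]
              congr 1
              push_cast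
              field_simp
              ring
            rw [h1]
            have h5 := (hp i).le
            have h6 : |(ν j : ℝ)| * |(q : ℝ) * ((ν i : ℝ) / ν j) - p i| ≤ |(ν j : ℝ)| * (1 / Q) :=
              mul_le_mul_of_nonneg_left h5 hνjA.le
            have h7 : 0 ≤ |(ν j : ℝ)| * (1 / Q) := by positivity
            calc |(ν j : ℝ)| * |(q : ℝ) * ((ν i : ℝ) / ν j) - p i| * logHeight₁ (α i)
                ≤ |(ν j : ℝ)| * |(q : ℝ) * ((ν i : ℝ) / ν j) - p i| * A :=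
                  mul_le_mul_of_nonneg_left (hh i) (by positivity)
              _ ≤ |(ν j : ℝ)| * (1 / Q) * A := mul_le_mul_of_nonneg_right h6 (by linarith)
              _ = |(ν j : ℝ)| * (A / Q) := by ring
        _ = |(ν j : ℝ)| * (n * A / Q) := by
            rw [Finset.sum_const, Finset.card_univ, Fintype.card_fin, nsmul_eq_mul]
            ring
    have h4 := le_of_mul_le_mul_left h3 hνjA
    refine h4.trans_lt ?_
    rw [div_lt_iff₀ hQ0]
    rw [div_lt_iff₀ hc0] at hQl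
    linarith

end Pool.Agent.Helper60.HB
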